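import Pool.Agent.MT100B.Stmts
import Pool.Agent.Helper47_MT.Hgr

/-! MT100B, module HGR: growth of the coefficients (adaptation of helper47's module). -/

set_option autoImplicit false

namespace Pool.Agent.MT100B.H69

open PowerSeries Pool.Agent.MT100 Pool.Agent.MT100.H47R

/-- one factor -/
theorem nm_half (m j : ℕ) :
    nm m ((C ((j : ℚ) + 1 / 2) + X) * (C ((j : ℚ) + 1) + X)⁻¹) ≤
      1 + ((m : ℚ) + 1) / ((j : ℚ) + 1) := by
  have hc : (1 : ℚ) ≤ (j : ℚ) + 1 := by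
    have : (0 : ℚ) ≤ j := Nat.cast_nonneg j
    linarith
  set w : PowerSeries ℚ := (C ((j : ℚ) + 1) + X)⁻¹ with hw
  have hinv : (C ((j : ℚ) + 1) + X : PowerSeries ℚ) * w = 1 :=
    PowerSeries.mul_inv_cancel _ (by
      rw [map_add, constantCoeff_C, constantCoeff_X, add_zero]
      positivity)
  have key : (C ((j : ℚ) + 1 / 2) + X) * w = 1 - C (1 / 2) * w := by
    have : (C ((j : ℚ) + 1 / 2) + X : PowerSeries ℚ) = (C ((j : ℚ) + 1) + X) - C (1 / 2) := by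
      have h2 : ((j : ℚ) + 1 / 2) = ((j : ℚ) + 1) - 1 / 2 := by ring
      rw [h2, map_sub]
      ring
    rw [this, sub_mul, hinv]
  rw [key]
  refine (nm_sub m _ _).trans ?_
  rw [nm_one]
  refine add_le_add_right ?_ 1
  refine (nm_mul m _ _).trans ?_
  rw [nm_C]
  calc |(1 / 2 : ℚ)| * nm m w ≤ 1 * nm m w :=
        mul_le_mul_of_nonneg_right (by rw [abs_of_pos (by norm_num)]; norm_num) (nm_nonneg _ _)
    _ = nm m w := one_mul _
    _ ≤ _ := nm_inv m hc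

theorem nm_Ch (m k : ℕ) : nm m (Ch k) ≤ ((k : ℚ) + 1) ^ (m + 1) := by
  have h1 : nm m (Ch k) ≤ ∏ j ∈ Finset.range k, ((((j : ℚ) + 2) / ((j : ℚ) + 1)) ^ (m + 1)) := by
    unfold Ch
    exact nm_prod m _ _ _ fun j _ => (nm_half m j).trans (bern m j)
  refine h1.trans (le_of_eq ?_)
  rw [Finset.prod_pow, tele]

theorem nm_Ak (D : Dat) (m k : ℕ) :
    nm m (MT100B.Ak D k) ≤ D.lam ^ k * ((k : ℚ) + 1) ^ ((m + 1) * (2 * D.s) + (m + 1)) := by
  have h0 : (0 : ℚ) ≤ D.lam ^ k := pow_nonneg D.lam_pos.le k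
  unfold MT100B.Ak
  refine (nm_mul m _ _).trans ?_
  calc nm m (MT100.Ak D k) * nm m (Ch k)
      ≤ (D.lam ^ k * ((k : ℚ) + 1) ^ ((m + 1) * (2 * D.s))) * ((k : ℚ) + 1) ^ (m + 1) :=
        mul_le_mul (H47R.nm_Ak D m k) (nm_Ch m k) (nm_nonneg _ _) (by positivity)
    _ = _ := by rw [mul_assoc, ← pow_add]

/-- HGR: growth of the coefficients -/
theorem hgr : MT100B.HgrStmt := by
  intro D
  refine ⟨ro D + ((ro D + 1) * (2 * D.s) + (ro D + 1)) + 1, fun a l k => ?_⟩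
  have h0 : (1 : ℚ) ≤ (k : ℚ) + 1 := by
    have : (0 : ℚ) ≤ k := Nat.cast_nonneg k
    linarith
  unfold MT100B.Hyp
  rw [coeff_mk]
  have hl : (l : ℕ) ≤ ro D := l.2.le
  refine (le_nm hl _).trans ?_
  refine (nm_mul _ _ _).trans ?_
  have h1 : nm (ro D) ((C (k : ℚ) + X) ^ (a : ℕ)) ≤ ((k : ℚ) + 1) ^ (ro D) := by
    refine (nm_pow _ _ _).trans ?_
    have h2 : nm (ro D) (C (k : ℚ) + X) ≤ (k : ℚ) + 1 := by
      refine (nm_add _ _ _).trans (add_le_add ?_ (nm_X _))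
      rw [nm_C, abs_of_nonneg (Nat.cast_nonneg k)]
    exact (pow_le_pow_left₀ (nm_nonneg _ _) h2 _).trans (pow_le_pow_right₀ h0 a.2.le)
  have h3 := nm_Ak D (ro D) k
  have hlam : (0 : ℚ) ≤ D.lam ^ k := pow_nonneg D.lam_pos.le k
  generalize hE : ((ro D + 1) * (2 * D.s) + (ro D + 1)) = E at h3 ⊢
  calc nm (ro D) ((C (k : ℚ) + X) ^ (a : ℕ)) * nm (ro D) (MT100B.Ak D k)
      ≤ ((k : ℚ) + 1) ^ (ro D) * (D.lam ^ k * ((k : ℚ) + 1) ^ E) :=
        mul_le_mul h1 h3 (nm_nonneg _ _) (by positivity)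
    _ = 1 * ((k : ℚ) + 1) ^ (ro D + E) * D.lam ^ k := by
        rw [pow_add]
        ring
    _ ≤ _ := by
        refine mul_le_mul_of_nonneg_right ?_ hlam
        refine mul_le_mul ?_ (pow_le_pow_right₀ h0 (Nat.le_succ _)) (by positivity) (by positivity)
        have : (0 : ℚ) ≤ ((ro D + E : ℕ) : ℚ) := Nat.cast_nonneg _
        rw [Nat.cast_add, Nat.cast_one]
        linarith

end Pool.Agent.MT100B.H69
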